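import Pool.Agent.Helper55.AR.Defs

/-! A good set is determined below `ℵ_ α` by its characteristic function. -/

set_option autoImplicit false

open Cardinal Ordinal Set Filter Helper23.Pcf Helper55.CP

universe u

namespace Helper55.AR

theorem good_sub {T : Sys.{u}} {γ₀ α : Ordinal.{u}} (hT : Match T γ₀ α)
    (hα : Order.IsSuccLimit α)
    {e e' : Ordinal.{u} → Ordinal.{u} → Ordinal.{u}}
    (he : ∀ x y, y < x → e x y < x.card.ord ∧ e' x (e x y) = y)
    {M M' : Set Ordinal.{u}} (h : Good T e e' M) (h' : Good T e e' M')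
    (hχ : ∀ i, chi M (T.c i).ord = chi M' (T.c i).ord) :
    ∀ y, y ∈ M → y < (ℵ_ α).ord → y ∈ M' := by
  intro y
  induction y using WellFoundedLT.induction with
  | ind y ih =>
    intro hy hyα
    rcases lt_or_ge y T.μ.ord with hlt | hge
    · exact h'.base hlt
    · have hμy : T.μ ≤ y.card := Cardinal.ord_le.1 hge
      rw [hT.hμ] at hμy
      have h0 : ℵ₀ ≤ y.card := (Cardinal.aleph0_le_aleph _).trans hμy
      obtain ⟨β, hβ⟩ := (Cardinal.mem_range_aleph_iff (c := y.card)).2 h0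
      have hβ : ℵ_ β = y.card := hβ
      have hβα : β < α := by
        have h1 : y.card < ℵ_ α := Cardinal.lt_ord.1 hyα
        rw [← hβ] at h1
        exact Cardinal.aleph_lt_aleph.1 h1
      have hγβ : γ₀ ≤ β := by
        rw [← hβ] at hμy
        exact Cardinal.aleph_le_aleph.1 hμy
      have hs : Order.succ β < α := hα.succ_lt hβα
      have hk : ℵ_ (Order.succ β) ∈ ival (ℵ_ γ₀) (ℵ_ α) :=
        ⟨Cardinal.isRegular_aleph_succ β,
          Cardinal.aleph_lt_aleph.2 (lt_of_le_of_lt hγβ (Order.lt_succ β)),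
          Cardinal.aleph_lt_aleph.2 hs⟩
      obtain ⟨i, hi⟩ := (hT.hc _).2 hk
      have hi' : T.c i = Order.succ (ℵ_ β) := by rw [hi, Cardinal.aleph_succ]
      have hyi : y < (T.c i).ord := by
        rw [Cardinal.lt_ord, hi', hβ]
        exact Order.lt_succ _
      obtain ⟨hcof, E, hE, hEc⟩ := h.club i
      obtain ⟨hcof', E', hE', hEc'⟩ := h'.club i
      rw [← hχ i] at hEc'
      have hcl := club_inter hcof hEc hEc'
      have hyχ : y < chi M (T.c i).ord := lt_chi hy hyi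
      obtain ⟨δ, ⟨hδ, hδ'⟩, hyδ, hδχ⟩ := hcl.unb y hyχ
      have hδi : δ < (T.c i).ord := hδχ.trans_le chi_le
      have hδc : δ.card ≤ ℵ_ β := by
        have h1 : δ.card < T.c i := Cardinal.lt_ord.1 hδi
        rw [hi'] at h1
        exact Order.lt_succ_iff.1 h1
      obtain ⟨h1, h2⟩ := he δ y hyδ
      have h3 : e δ y < y :=
        h1.trans_le ((Cardinal.ord_le_ord.2 (hδc.trans hβ.le)).trans (Cardinal.ord_card_le y))
      have h4 := ih _ h3 (h.e_mem δ (hE hδ) y hy) (h3.trans hyα)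
      have h5 := h'.e'_mem δ (hE' hδ') _ h4
      rwa [h2] at h5

/-- B -/
theorem good_unique {T : Sys.{u}} {γ₀ α : Ordinal.{u}} (hT : Match T γ₀ α) (_hγ : γ₀ ≤ α)
    (hα : Order.IsSuccLimit α)
    {e e' : Ordinal.{u} → Ordinal.{u} → Ordinal.{u}}
    (he : ∀ x y, y < x → e x y < x.card.ord ∧ e' x (e x y) = y)
    {M M' : Set Ordinal.{u}} (h : Good T e e' M) (h' : Good T e e' M')
    (hχ : ∀ i, chi M (T.c i).ord = chi M' (T.c i).ord) :
    M ∩ Iio (ℵ_ α).ord = M' ∩ Iio (ℵ_ α).ord := by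
  apply Subset.antisymm
  · rintro y ⟨hy, hyα⟩
    exact ⟨good_sub hT hα he h h' hχ y hy hyα, hyα⟩
  · rintro y ⟨hy, hyα⟩
    exact ⟨good_sub hT hα he h' h (fun i => (hχ i).symm) y hy hyα, hyα⟩

end Helper55.AR
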